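import Pool.Agent.Results.MP_ae074a_al.Continuum

set_option autoImplicit false
set_option maxHeartbeats 400000

/-!
For every prime `p` the power set of `ℕ`, ordered by reverse inclusion, embeds in the lattice of
subvarieties of `𝔄_p³`; the embedding preserves arbitrary intersections, the subvarieties in its
image are separated by finite `p`-groups, and those coming from infinite sets have no finite basis
for their laws.
-/

namespace Pool.Agent.Results.MP_ae074a_al.PowerSetEmbedding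

open Pool.Agent.Results.MP_ae074a_al.Continuum
open Pool.Agent.LawsFI (F)
open Pool.Agent.LawsFL (wrd GN GN_wrd GN_not_wrd GN_series WG WT)

universe u

/-! ### Compactness for laws -/

/-- the consequences of the words in `W` -/
def vb (W : Set F) : Subgroup F := Subgroup.closure {x | ∃ φ : F →* F, ∃ w ∈ W, x = φ w}

theorem vb_mono {W W' : Set F} (h : W ⊆ W') : vb W ≤ vb W' := by
  apply Subgroup.closure_mono
  rintro x ⟨φ, w, hw, rfl⟩
  exact ⟨φ, w, h hw, rfl⟩

theorem mem_vb {W : Set F} {w : F} (hw : w ∈ W) (φ : F →* F) : φ w ∈ vb W :=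
  Subgroup.subset_closure ⟨φ, w, hw, rfl⟩

instance vb_normal (W : Set F) : (vb W).Normal := by
  constructor
  intro n hn g
  have : vb W ≤ (vb W).comap (MulAut.conj g).toMonoidHom := by
    rw [vb, Subgroup.closure_le]
    rintro x ⟨φ, w, hw, rfl⟩
    exact mem_vb hw ((MulAut.conj g).toMonoidHom.comp φ)
  have h := this hn
  simpa using h

theorem law_of_vb {W : Set F} {G : Type u} [Group G] (hG : ∀ w ∈ W, IsLaw w G) {l : F}
    (hl : l ∈ vb W) : IsLaw l G := by
  intro f
  have : vb W ≤ f.ker := by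
    rw [vb, Subgroup.closure_le]
    rintro x ⟨φ, w, hw, rfl⟩
    exact hG w hw (f.comp φ)
  exact this hl

theorem vb_of_law {W : Set F} {l : F}
    (h : ∀ (G : Type u) (h : Group G), variety.{u} W G h → IsLaw l G) : l ∈ vb W := by
  have h1 : variety.{u} W (ULift.{u} (F ⧸ vb W)) inferInstance := by
    intro w hw
    apply law_ulift
    intro φ
    have hs : ∀ i, ∃ v : F, (v : F ⧸ vb W) = φ (FreeGroup.of i) := fun i =>
      QuotientGroup.mk_surjective _
    choose v hv using hs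
    have h2 : φ = (QuotientGroup.mk' (vb W)).comp (FreeGroup.lift v) := by
      ext i
      simp [hv]
    rw [h2, MonoidHom.comp_apply, QuotientGroup.mk'_apply, QuotientGroup.eq_one_iff]
    exact mem_vb hw _
  have h3 := h _ _ h1 ((MulEquiv.ulift (α := F ⧸ vb W)).symm.toMonoidHom.comp
    (QuotientGroup.mk' (vb W)))
  have h4 := congrArg (MulEquiv.ulift (α := F ⧸ vb W)) h3
  rw [← QuotientGroup.eq_one_iff]
  simpa using h4

theorem vb_finite_aux (W : Set F) : vb W ≤
    { carrier := {l | ∃ W₀ ⊆ W, W₀.Finite ∧ l ∈ vb W₀}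
      mul_mem' := by
        rintro x y ⟨A, h1, h2, h3⟩ ⟨B, k1, k2, k3⟩
        exact ⟨A ∪ B, Set.union_subset h1 k1, h2.union k2, Subgroup.mul_mem _
          (vb_mono Set.subset_union_left h3) (vb_mono Set.subset_union_right k3)⟩
      one_mem' := ⟨∅, Set.empty_subset _, Set.finite_empty, Subgroup.one_mem _⟩
      inv_mem' := by
        rintro x ⟨A, h1, h2, h3⟩
        exact ⟨A, h1, h2, Subgroup.inv_mem _ h3⟩ : Subgroup F } := by
  rw [vb, Subgroup.closure_le]
  rintro x ⟨φ, w, hw, rfl⟩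
  exact ⟨{w}, Set.singleton_subset_iff.2 hw, Set.finite_singleton w,
    mem_vb (Set.mem_singleton w) φ⟩

theorem vb_finite {W : Set F} {l : F} (hl : l ∈ vb W) : ∃ W₀ ⊆ W, W₀.Finite ∧ l ∈ vb W₀ :=
  vb_finite_aux W hl

/-! ### The groups -/

instance finite_GN (p : ℕ) [Fact p.Prime] (n : ℕ) : Finite (GN p n) := by
  haveI : NeZero p := ⟨(Fact.out : p.Prime).ne_zero⟩
  haveI h1 : Finite (WT p n) :=
    Finite.of_injective (fun x : WT p n => (x.g, x.x)) (by
      intro x y h
      exact WT.ext (congrArg Prod.fst h) (congrArg Prod.snd h))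
  haveI h2 : Finite (WG p (WT p n)) :=
    Finite.of_injective (fun x : WG p (WT p n) => (x.f, x.t)) (by
      intro x y h
      exact WG.ext (congrArg Prod.fst h) (congrArg Prod.snd h))
  infer_instance

theorem isPGroup_of_Ap3 {p : ℕ} {G : Type u} {h : Group G} (hG : Ap3 p G h) : IsPGroup p G := by
  obtain ⟨G₁, G₂, -, -, -, -, h1, -, h2, -, h3⟩ := hG
  intro g
  refine ⟨3, ?_⟩
  rw [show p ^ 3 = p * p * p by ring, pow_mul, pow_mul]
  exact h1 _ (h2 _ (h3 g))

theorem variety_W0 (p : ℕ) (G : Type u) (h : Group G) :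
    variety.{u} (W0 p) G h ↔ Ap3 p G h := by
  constructor
  · intro hG
    exact Ap3_of_W0 hG
  · rintro hG w hw
    exact W0_law hG hw

theorem variety_WI (p : ℕ) (I : Set ℕ) (G : Type u) (h : Group G) :
    variety.{u} (WI p I) G h ↔ Ap3 p G h ∧ ∀ q ∈ I, IsLaw (wrd p (q + 1)) G := by
  rw [← variety_W0]
  constructor
  · intro hG
    exact ⟨fun w hw => hG w (Or.inl hw), fun q hq => hG _ (Or.inr ⟨q, hq, rfl⟩)⟩
  · rintro ⟨h1, h2⟩ w (hw | ⟨q, hq, rfl⟩)
    · exact h1 w hw
    · exact h2 q hq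

theorem le_of_finite {p : ℕ} [Fact p.Prime] {I J : Set ℕ}
    (h : ∀ (G : Type u) (h : Group G), Finite G → IsPGroup p G → variety.{u} (WI p I) G h →
      variety.{u} (WI p J) G h) : J ⊆ I := by
  intro q hq
  by_contra hI
  have h1 := GN_mem.{u} (p := p) hI
  have h2 : Ap3.{u} p (ULift.{u} (GN p (q + 1 + 1))) inferInstance :=
    ((variety_WI p I _ _).1 h1).1
  exact GN_notMem hq (h _ _ inferInstance (isPGroup_of_Ap3 h2) h1)

theorem WI_mono (p : ℕ) {I J : Set ℕ} (h : J ⊆ I) (G : Type u) (hG : Group G)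
    (h1 : variety.{u} (WI p I) G hG) : variety.{u} (WI p J) G hG := by
  rw [variety_WI] at h1 ⊢
  exact ⟨h1.1, fun q hq => h1.2 q (h hq)⟩

theorem not_finite_basis {p : ℕ} [Fact p.Prime] {I : Set ℕ} (hI : I.Infinite) :
    ¬ ∃ W : Set (FreeGroup ℕ), W.Finite ∧ variety.{u} (WI p I) = variety W := by
  classical
  rintro ⟨W, hW, h⟩
  have h1 : ∀ l ∈ W, ∃ W₀ ⊆ WI p I, W₀.Finite ∧ l ∈ vb W₀ := by
    intro l hl
    apply vb_finite
    apply vb_of_law.{u}
    intro G hG hG1
    rw [h] at hG1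
    exact hG1 l hl
  choose! A hA1 hA2 hA3 using h1
  let U : Set F := ⋃ l ∈ W, A l
  have hU : U.Finite := hW.biUnion hA2
  have hU1 : ∀ x ∈ U, x ∈ W0 p ∨ ∃ q ∈ I, x = wrd p (q + 1) := by
    intro x hx
    obtain ⟨l, hl, hx⟩ := Set.mem_iUnion₂.1 hx
    exact hA1 l hl hx
  have hg : ∀ x : F, ∃ q : ℕ, x ∈ U → x ∈ W0 p ∨ (q ∈ I ∧ x = wrd p (q + 1)) := by
    intro x
    by_cases hx : x ∈ U
    · rcases hU1 x hx with h2 | ⟨q, hq, h2⟩
      · exact ⟨0, fun _ => Or.inl h2⟩
      · exact ⟨q, fun _ => Or.inr ⟨hq, h2⟩⟩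
    · exact ⟨0, fun h => absurd h hx⟩
  choose g hg using hg
  have hsub : I ⊆ g '' U := by
    apply le_of_finite.{u} (p := p)
    intro G hG _ _ h2
    rw [h]
    intro l hl
    refine law_of_vb (W := A l) ?_ (hA3 l hl)
    intro x hx
    have hxU : x ∈ U := Set.mem_iUnion₂.2 ⟨l, hl, hx⟩
    rw [variety_WI] at h2
    rcases hg x hxU with h3 | ⟨-, h3⟩
    · exact ((variety_W0 p G hG).2 h2.1) x h3
    · rw [h3]
      exact h2.2 _ ⟨x, hxU, rfl⟩
  exact hI ((hU.image g).subset hsub)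

/-- Let `p` be a prime.

(1) There are words `w 0, w 1, …` and finite `p`-groups `G 0, G 1, …` in `𝔄_p³` such that `w i` is a
law of `G j` if and only if `i ≠ j`.

(2) There is a map `V` from the subsets of `ℕ` to the subvarieties of `𝔄_p³` with `V ∅ = 𝔄_p³` such
that `V I ⊆ V J` if and only if `J ⊆ I`, and this holds already if all finite `p`-groups of `V I` are
in `V J`; unions go to intersections; and if `I` is infinite then `V I` is not defined by finitely
many laws.

(3) The set of all subvarieties of `𝔄_p³` has cardinality `2^ℵ₀`. -/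
theorem result (p : ℕ) (hp : p.Prime) :
    (∃ (w : ℕ → FreeGroup ℕ) (G : ℕ → Type u) (_ : ∀ n, Group (G n)),
      (∀ n, Finite (G n) ∧ IsPGroup p (G n) ∧ Ap3.{u} p (G n) inferInstance) ∧
      ∀ i j, IsLaw (w i) (G j) ↔ i ≠ j) ∧
    (∃ V : Set ℕ → GroupClass.{u}, V ∅ = Ap3 p ∧ (∀ I, V I ∈ subvarieties.{u} p) ∧
      (∀ I J, (∀ (G : Type u) (h : Group G), V I G h → V J G h) ↔ J ⊆ I) ∧
      (∀ I J, (∀ (G : Type u) (h : Group G), Finite G → IsPGroup p G → V I G h → V J G h) →
        J ⊆ I) ∧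
      (∀ (S : Set (Set ℕ)) (G : Type u) (h : Group G),
        V (⋃₀ S) G h ↔ (Ap3 p G h ∧ ∀ I ∈ S, V I G h)) ∧
      ∀ I, I.Infinite → ¬ ∃ W : Set (FreeGroup ℕ), W.Finite ∧ V I = variety W) ∧
    Cardinal.mk (subvarieties.{u} p) = 2 ^ Cardinal.aleph0 := by
  haveI : Fact p.Prime := ⟨hp⟩
  refine ⟨⟨fun i => wrd p (i + 1), fun j => ULift.{u} (GN p (j + 1 + 1)), fun _ => inferInstance,
    fun n => ?_, fun i j => ?_⟩, ⟨fun I => variety (WI p I), ?_, fun I => mem_sub p I,
      fun I J => ⟨fun h => le_of_finite.{u} fun G hG _ _ h1 => h G hG h1, fun h => WI_mono p h⟩,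
      fun I J h => le_of_finite.{u} h, fun S G h => ?_, fun I hI => not_finite_basis hI⟩,
    Continuum.result.{u} p hp⟩
  · have h2 : Ap3.{u} p (ULift.{u} (GN p (n + 1 + 1))) inferInstance :=
      ((variety_WI p ∅ _ _).1 (GN_mem.{u} (p := p) (q := n) (J := ∅) (by simp))).1
    exact ⟨inferInstance, isPGroup_of_Ap3 h2, h2⟩
  · constructor
    · rintro h rfl
      exact not_law_ulift (GN_not_wrd (p := p) (N := i + 1) (by omega)) h
    · intro hij
      apply law_ulift
      intro φ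
      apply GN_wrd
      omega
  · funext G h
    apply propext
    change variety.{u} (WI p ∅) G h ↔ _
    rw [variety_WI]
    exact ⟨fun h => h.1, fun h => ⟨h, fun q hq => absurd hq (by simp)⟩⟩
  · simp only [variety_WI]
    constructor
    · rintro ⟨h1, h2⟩
      exact ⟨h1, fun I hI => ⟨h1, fun q hq => h2 q ⟨I, hI, hq⟩⟩⟩
    · rintro ⟨h1, h2⟩
      refine ⟨h1, ?_⟩
      rintro q ⟨I, hI, hq⟩
      exact (h2 I hI).2 q hq

end Pool.Agent.Results.MP_ae074a_al.PowerSetEmbedding
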